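import Pool.Agent.H223.EM.MDefs

/-!
Project EM (helper223), task MI3: the weight `v2` of the norm of `C2`.
-/

set_option autoImplicit false

namespace Pool.Agent.H509R2.EMMI3

open Finset Filter Topology MeasureTheory
open Pool.Agent.H306R2 Pool.Agent.H306R2.SM Pool.Agent.H223.EM

noncomputable section

/-- one-variable local weight -/
def fv (p a : ℕ) : ℝ := Del p a ^ 2 * (1 / (p : ℝ)) ^ a

/-- local weights of `v2` -/
def lamV (p : ℕ) (v : Fin 2 → ℕ) : ℝ := if v 0 = 0 ∨ v 1 = 0 then fv p (v 0) * fv p (v 1) else 0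

theorem Del_zero (p : ℕ) : Del p 0 = 1 := by
  unfold Del
  simp

theorem fv_zero (p : ℕ) : fv p 0 = 1 := by
  unfold fv
  rw [Del_zero]
  norm_num

theorem fv_nonneg (p a : ℕ) : 0 ≤ fv p a := by
  unfold fv
  positivity

theorem x_facts {p : ℕ} (hp : p.Prime) : 0 < 1 / (p : ℝ) ∧ 1 / (p : ℝ) ≤ 1 / 2 := by
  have h2 : (2 : ℝ) ≤ p := by exact_mod_cast hp.two_le
  refine ⟨by positivity, ?_⟩
  exact one_div_le_one_div_of_le (by norm_num) h2

theorem Del_eq (p a : ℕ) : Del p a = 1 + (a : ℝ) * ((1 - 1 / (p : ℝ)) / (1 + 1 / (p : ℝ))) := by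
  unfold Del
  rw [mul_div_assoc]

theorem fv_one {p : ℕ} (hp : p.Prime) : fv p 1 = 4 * (1 / (p : ℝ)) / (1 + 1 / (p : ℝ)) ^ 2 := by
  obtain ⟨h0, h1⟩ := x_facts hp
  unfold fv
  rw [Del_eq]
  generalize 1 / (p : ℝ) = x at *
  have : (1 + x) ≠ 0 := by positivity
  field_simp
  push_cast
  ring

theorem choose_step (k m : ℕ) : (((m + (k + 1)).choose (k + 1) : ℕ) : ℝ) =
    ((m : ℝ) + k + 1) / ((k : ℝ) + 1) * (((m + k).choose k : ℕ) : ℝ) := by
  have h := Nat.add_one_mul_choose_eq (m + k) k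
  have h' : ((m + k + 1 : ℕ) : ℝ) * ((m + k).choose k : ℕ) =
      (((m + k + 1).choose (k + 1) : ℕ) : ℝ) * ((k + 1 : ℕ) : ℝ) := by exact_mod_cast h
  push_cast at h'
  have hk : (k : ℝ) + 1 ≠ 0 := by positivity
  rw [div_mul_eq_mul_div, eq_div_iff hk, h']
  rfl

theorem hasSum_fv {p : ℕ} (hp : p.Prime) :
    HasSum (fv p) ((1 + 4 * (1 / (p : ℝ))) / (1 - (1 / (p : ℝ)) ^ 2)) := by
  obtain ⟨h0, h1⟩ := x_facts hp
  set x : ℝ := 1 / (p : ℝ) with hx
  set u : ℝ := (1 - x) / (1 + x) with hu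
  have hn : ‖x‖ < 1 := by rw [Real.norm_of_nonneg h0.le]; linarith
  have s0 := (hasSum_choose_mul_geometric_of_norm_lt_one 0 hn).mul_left (1 - 2 * u + u ^ 2)
  have s1 := (hasSum_choose_mul_geometric_of_norm_lt_one 1 hn).mul_left (2 * u - 3 * u ^ 2)
  have s2 := (hasSum_choose_mul_geometric_of_norm_lt_one 2 hn).mul_left (2 * u ^ 2)
  have s := (s0.add s1).add s2
  have e1 : (fun a : ℕ => (1 - 2 * u + u ^ 2) * ((((a + 0).choose 0 : ℕ) : ℝ) * x ^ a) +
      (2 * u - 3 * u ^ 2) * ((((a + 1).choose 1 : ℕ) : ℝ) * x ^ a) +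
      2 * u ^ 2 * ((((a + 2).choose 2 : ℕ) : ℝ) * x ^ a)) = fv p := by
    funext a
    unfold fv
    rw [Del_eq, ← hx, ← hu, choose_step 1 a, show (a + 1).choose 1 = (a + (0 + 1)).choose (0 + 1) from rfl,
      choose_step 0 a, Nat.choose_zero_right]
    push_cast
    ring
  rw [e1] at s
  have e2 : (1 - 2 * u + u ^ 2) * (1 / (1 - x) ^ (0 + 1)) + (2 * u - 3 * u ^ 2) * (1 / (1 - x) ^ (1 + 1)) +
      2 * u ^ 2 * (1 / (1 - x) ^ (2 + 1)) = (1 + 4 * x) / (1 - x ^ 2) := by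
    have h2 : (1 + x) ≠ 0 := by positivity
    have h3 : (1 - x) ≠ 0 := by linarith
    have h4 : (1 - x ^ 2) ≠ 0 := by
      have : 1 - x ^ 2 = (1 - x) * (1 + x) := by ring
      rw [this]
      exact mul_ne_zero h3 h2
    rw [hu]
    have h5 : (1 : ℝ) - x ^ 2 = (1 - x) * (1 + x) := by ring
    rw [h5]
    field_simp
    ring
  rw [e2] at s
  exact s

theorem vec_eq (v : Fin 2 → ℕ) : v = ![v 0, v 1] := by
  ext i
  fin_cases i <;> rfl

theorem hasSum_A (f : ℕ → ℝ) (S : ℝ) (hf : HasSum f S) :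
    HasSum (fun v : Fin 2 → ℕ => if v 1 = 0 then f (v 0) else 0) S := by
  have hinj : Function.Injective (fun a : ℕ => (![a, 0] : Fin 2 → ℕ)) := by
    intro a b hab
    exact congrFun hab 0
  refine (hinj.hasSum_iff ?_).1 ?_
  · intro v hv
    by_cases h : v 1 = 0
    · exfalso
      refine hv ⟨v 0, ?_⟩
      rw [vec_eq v, h]
      rfl
    · exact if_neg h
  · have : ((fun v : Fin 2 → ℕ => if v 1 = 0 then f (v 0) else 0) ∘ fun a : ℕ => (![a, 0] : Fin 2 → ℕ)) = f := by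
      funext a
      simp
    rw [this]
    exact hf

theorem hasSum_B (f : ℕ → ℝ) (S : ℝ) (hf : HasSum f S) :
    HasSum (fun v : Fin 2 → ℕ => if v 0 = 0 then f (v 1) else 0) S := by
  have hinj : Function.Injective (fun a : ℕ => (![0, a] : Fin 2 → ℕ)) := by
    intro a b hab
    exact congrFun hab 1
  refine (hinj.hasSum_iff ?_).1 ?_
  · intro v hv
    by_cases h : v 0 = 0
    · exfalso
      refine hv ⟨v 1, ?_⟩
      rw [vec_eq v, h]
      rfl
    · exact if_neg h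
  · have : ((fun v : Fin 2 → ℕ => if v 0 = 0 then f (v 1) else 0) ∘ fun a : ℕ => (![0, a] : Fin 2 → ℕ)) = f := by
      funext a
      simp
    rw [this]
    exact hf

theorem hasSum_lam {p : ℕ} (hp : p.Prime) : HasSum (lamV p)
    (2 * ((1 + 4 * (1 / (p : ℝ))) / (1 - (1 / (p : ℝ)) ^ 2)) - 1) := by
  have hA := hasSum_A (fv p) _ (hasSum_fv hp)
  have hB := hasSum_B (fv p) _ (hasSum_fv hp)
  have hZ := hasSum_ite_eq (0 : Fin 2 → ℕ) (1 : ℝ)
  have h := (hA.add hB).sub hZ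
  have e : (fun v : Fin 2 → ℕ => ((if v 1 = 0 then fv p (v 0) else 0) +
      (if v 0 = 0 then fv p (v 1) else 0)) - (if v = 0 then (1 : ℝ) else 0)) = lamV p := by
    funext v
    rw [vec_eq v]
    generalize v 0 = a
    generalize v 1 = b
    unfold lamV
    have h0 : ((![a, b] : Fin 2 → ℕ) = 0) ↔ (a = 0 ∧ b = 0) := by
      constructor
      · intro h
        exact ⟨congrFun h 0, congrFun h 1⟩
      · rintro ⟨rfl, rfl⟩
        ext i
        fin_cases i <;> rfl
    simp only [Matrix.cons_val_zero, Matrix.cons_val_one, h0]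
    by_cases ha : a = 0 <;> by_cases hb : b = 0
    · subst ha; subst hb
      simp [fv_zero]
    · subst ha
      simp [fv_zero, hb]
    · subst hb
      simp [fv_zero, ha]
    · simp [ha, hb]
  rw [e] at h
  have e5 : (1 + 4 * (1 / (p : ℝ))) / (1 - (1 / (p : ℝ)) ^ 2) +
      (1 + 4 * (1 / (p : ℝ))) / (1 - (1 / (p : ℝ)) ^ 2) - 1 =
      2 * ((1 + 4 * (1 / (p : ℝ))) / (1 - (1 / (p : ℝ)) ^ 2)) - 1 := by ring
  rw [e5] at h
  exact h

theorem lamV_e0 (p : ℕ) : lamV p ![1, 0] = fv p 1 := by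
  simp [lamV, fv_zero]

theorem lamV_e1 (p : ℕ) : lamV p ![0, 1] = fv p 1 := by
  simp [lamV, fv_zero]

theorem lamV_zero (p : ℕ) : lamV p 0 = 1 := by
  simp [lamV, fv_zero]

theorem hasSum_second {p : ℕ} (hp : p.Prime) :
    HasSum (fun v : Fin 2 → ℕ => if 2 ≤ ∑ i, v i then lamV p v else 0)
    (2 * ((1 + 4 * (1 / (p : ℝ))) / (1 - (1 / (p : ℝ)) ^ 2)) - 1 - 1 - fv p 1 - fv p 1) := by
  have h := (((hasSum_lam hp).sub (hasSum_ite_eq (0 : Fin 2 → ℕ) (1 : ℝ))).sub
    (hasSum_ite_eq (![1, 0] : Fin 2 → ℕ) (fv p 1))).sub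
    (hasSum_ite_eq (![0, 1] : Fin 2 → ℕ) (fv p 1))
  have e : (fun v : Fin 2 → ℕ => if 2 ≤ ∑ i, v i then lamV p v else 0) =
      (fun v : Fin 2 → ℕ => lamV p v - (if v = 0 then (1 : ℝ) else 0) -
        (if v = ![1, 0] then fv p 1 else 0) - (if v = ![0, 1] then fv p 1 else 0)) := by
    funext v
    rw [Fin.sum_univ_two]
    have key : ∀ c d : ℕ, v = ![c, d] ↔ (v 0 = c ∧ v 1 = d) := by
      intro c d
      constructor
      · rintro rfl
        exact ⟨rfl, rfl⟩
      · rintro ⟨rfl, rfl⟩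
        exact vec_eq v
    by_cases h0 : v = 0
    · subst h0
      have h1 : (0 : Fin 2 → ℕ) ≠ ![1, 0] := fun h => absurd (congrFun h 0) (by decide)
      have h2 : (0 : Fin 2 → ℕ) ≠ ![0, 1] := fun h => absurd (congrFun h 1) (by decide)
      rw [if_neg (by decide), if_pos rfl, if_neg h1, if_neg h2, lamV_zero]
      norm_num
    · by_cases h1 : v = ![1, 0]
      · subst h1
        have h2 : (![1, 0] : Fin 2 → ℕ) ≠ ![0, 1] := fun h => absurd (congrFun h 0) (by decide)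
        rw [if_neg (by decide), if_neg h0, if_pos rfl, if_neg h2, lamV_e0]
        norm_num
      · by_cases h2 : v = ![0, 1]
        · subst h2
          rw [if_neg (by decide), if_neg h0, if_neg h1, if_pos rfl, lamV_e1]
          norm_num
        · rw [if_neg h0, if_neg h1, if_neg h2, if_pos]
          · ring
          · rw [key 1 0] at h1
            rw [key 0 1] at h2
            have h3 : ¬ (v 0 = 0 ∧ v 1 = 0) := by
              rintro ⟨ha, hb⟩
              apply h0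
              rw [vec_eq v, ha, hb]
              ext i
              fin_cases i <;> rfl
            omega
  rw [e]
  exact h

theorem LW_lamV : LW 2 ![4, 4] lamV := by
  refine ⟨?_, ?_, ?_, ⟨12, ?_⟩, ⟨40, ?_⟩⟩
  · intro p _ v
    unfold lamV
    split_ifs
    · exact mul_nonneg (fv_nonneg _ _) (fv_nonneg _ _)
    · exact le_rfl
  · intro p _
    exact lamV_zero p
  · intro p hp
    exact (hasSum_lam hp).summable
  · intro p hp i
    obtain ⟨h0, h1⟩ := x_facts hp
    have hp0 : (p : ℝ) ≠ 0 := by exact_mod_cast hp.ne_zero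
    have e : lamV p (Pi.single i 1) = fv p 1 := by
      unfold lamV
      fin_cases i <;> simp [fv_zero]
    have e2 : ((![4, 4] : Fin 2 → ℕ) i : ℝ) / p = 4 * (1 / (p : ℝ)) := by
      fin_cases i <;> (simp; ring)
    rw [e, e2, fv_one hp]
    have e3 : (12 : ℝ) / (p : ℝ) ^ 2 = 12 * (1 / (p : ℝ)) ^ 2 := by
      rw [one_div, inv_pow, div_eq_mul_inv]
    rw [e3]
    generalize 1 / (p : ℝ) = x at *
    have hx1 : (0 : ℝ) < 1 + x := by linarith
    have e4 : 4 * x / (1 + x) ^ 2 - 4 * x = -(4 * x ^ 2 * (2 + x) / (1 + x) ^ 2) := by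
      field_simp
      ring
    rw [e4, abs_neg, abs_of_nonneg (by positivity), div_le_iff₀ (by positivity)]
    nlinarith [mul_pos h0 h0, mul_pos (mul_pos h0 h0) h0, mul_pos (mul_pos h0 h0) (mul_pos h0 h0)]
  · intro p hp
    rw [(hasSum_second hp).tsum_eq, fv_one hp]
    obtain ⟨h0, h1⟩ := x_facts hp
    have e3 : (40 : ℝ) / (p : ℝ) ^ 2 = 40 * (1 / (p : ℝ)) ^ 2 := by
      rw [one_div, inv_pow, div_eq_mul_inv]
    rw [e3]
    generalize 1 / (p : ℝ) = x at *
    have h2 : (0 : ℝ) < 1 + x := by linarith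
    have h3 : (0 : ℝ) < 1 - x := by linarith
    have h5 : (1 : ℝ) - x ^ 2 = (1 - x) * (1 + x) := by ring
    have e4 : 2 * ((1 + 4 * x) / (1 - x ^ 2)) - 1 - 1 - 4 * x / (1 + x) ^ 2 - 4 * x / (1 + x) ^ 2 =
        2 * x ^ 2 * (9 + x) / ((1 - x) * (1 + x) ^ 2) := by
      rw [h5]
      field_simp
      ring
    rw [e4, div_le_iff₀ (by positivity)]
    have h6 : x ^ 2 * (9 + x) ≤ x ^ 2 * (20 * ((1 - x) * (1 + x) ^ 2)) := by
      apply mul_le_mul_of_nonneg_left _ (sq_nonneg x)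
      nlinarith [mul_pos h0 h0]
    nlinarith

/-! ### the multiplicative function -/

theorem prod_fv {h : ℕ} (hh : h ≠ 0) :
    ∏ p ∈ h.primeFactors, fv p (h.factorization p) = De h ^ 2 / (h : ℝ) := by
  unfold fv
  rw [Finset.prod_mul_distrib, Finset.prod_pow]
  have e1 : ∏ p ∈ h.primeFactors, Del p (h.factorization p) = De h := by
    unfold De
    rw [Finsupp.prod, Nat.support_factorization]
  have e2 : ∏ p ∈ h.primeFactors, (1 / (p : ℝ)) ^ h.factorization p = 1 / (h : ℝ) := by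
    have h3 : ((h.factorization.prod (fun p e => p ^ e) : ℕ) : ℝ) = h := by
      exact_mod_cast Nat.prod_factorization_pow_eq_self hh
    rw [Finsupp.prod, Nat.support_factorization] at h3
    push_cast at h3
    conv_rhs => rw [← h3]
    rw [one_div, ← Finset.prod_inv_distrib]
    refine Finset.prod_congr rfl fun p _ => ?_
    rw [one_div, inv_pow]
  rw [e1, e2]
  ring

theorem v2_eq : v2 = mw lamV := by
  funext b
  unfold v2 mw
  by_cases hb : ∀ i, b i ≠ 0
  · have h0 := hb 0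
    have h1 := hb 1
    rw [if_pos hb, Fin.prod_univ_two]
    by_cases hc : Nat.Coprime (b 0) (b 1)
    · rw [if_pos ⟨hc, h0, h1⟩, hc.primeFactors_mul,
        Finset.prod_union hc.disjoint_primeFactors]
      have e0 : ∏ p ∈ (b 0).primeFactors, lamV p (fun i => (b i).factorization p) =
          De (b 0) ^ 2 / (b 0 : ℝ) := by
        rw [← prod_fv h0]
        refine Finset.prod_congr rfl fun p hp => ?_
        have hz : (b 1).factorization p = 0 := by
          apply Nat.factorization_eq_zero_of_not_dvd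
          intro hd
          have hp' := Nat.prime_of_mem_primeFactors hp
          have h2 := Nat.dvd_gcd (Nat.dvd_of_mem_primeFactors hp) hd
          rw [hc] at h2
          exact hp'.one_lt.ne' (Nat.dvd_one.1 h2)
        unfold lamV
        beta_reduce
        rw [hz, if_pos (Or.inr rfl), fv_zero, mul_one]
      have e1 : ∏ p ∈ (b 1).primeFactors, lamV p (fun i => (b i).factorization p) =
          De (b 1) ^ 2 / (b 1 : ℝ) := by
        rw [← prod_fv h1]
        refine Finset.prod_congr rfl fun p hp => ?_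
        have hz : (b 0).factorization p = 0 := by
          apply Nat.factorization_eq_zero_of_not_dvd
          intro hd
          have hp' := Nat.prime_of_mem_primeFactors hp
          have h2 := Nat.dvd_gcd hd (Nat.dvd_of_mem_primeFactors hp)
          rw [hc] at h2
          exact hp'.one_lt.ne' (Nat.dvd_one.1 h2)
        unfold lamV
        beta_reduce
        rw [hz, if_pos (Or.inl rfl), fv_zero, one_mul]
      rw [e0, e1]
      field_simp
    · rw [if_neg (fun h => hc h.1)]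
      symm
      obtain ⟨p, hp, hd0, hd1⟩ := Nat.Prime.not_coprime_iff_dvd.1 hc
      apply Finset.prod_eq_zero (i := p)
      · rw [Nat.mem_primeFactors]
        exact ⟨hp, hd0.mul_right _, mul_ne_zero h0 h1⟩
      · unfold lamV
        apply if_neg
        rw [not_or]
        exact ⟨(hp.factorization_pos_of_dvd h0 hd0).ne', (hp.factorization_pos_of_dvd h1 hd1).ne'⟩
  · rw [if_neg hb, if_neg]
    rintro ⟨-, h0, h1⟩
    apply hb
    intro i
    fin_cases i
    · exact h0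
    · exact h1

/-! ### the constant -/

theorem summable_x2 : Summable (fun p : Nat.Primes => (1 / ((p : ℕ) : ℝ)) ^ 2) := by
  have h := (Real.summable_one_div_nat_pow (p := 2)).2 one_lt_two
  have h2 := h.comp_injective (i := fun p : Nat.Primes => (p : ℕ)) Subtype.coe_injective
  refine h2.congr fun p => ?_
  show 1 / (((p : ℕ) : ℝ)) ^ 2 = _
  rw [one_div_pow]

/-- local factor of `kp` -/
def kl (p : Nat.Primes) : ℝ := 1 - (1 / ((p : ℕ) : ℝ)) ^ 2

theorem kl_pos (p : Nat.Primes) : 0 < kl p := by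
  obtain ⟨h0, h1⟩ := x_facts p.2
  unfold kl
  nlinarith

theorem kl_log : Summable fun p => Real.log (kl p) := by
  have h := Real.summable_log_one_add_of_summable summable_x2.neg
  refine h.congr fun p => ?_
  unfold kl
  rw [sub_eq_add_neg]

theorem kl_mult : Multipliable kl := Real.multipliable_of_summable_log kl_pos kl_log

theorem kp_pos : 0 < kp := by
  have h := Real.rexp_tsum_eq_tprod kl_pos kl_log
  have : kp = ∏' p, kl p := rfl
  rw [this, ← h]
  exact Real.exp_pos _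

/-- local factor of the limit -/
def ll (p : Nat.Primes) : ℝ := (1 - 1 / ((p : ℕ) : ℝ)) ^ 8 * ∑' v : Fin 2 → ℕ, lamV p v

theorem ll_eq (p : Nat.Primes) : ll p =
    (1 - 1 / ((p : ℕ) : ℝ)) ^ 7 * (1 + 8 * (1 / ((p : ℕ) : ℝ)) + (1 / ((p : ℕ) : ℝ)) ^ 2) /
      (1 + 1 / ((p : ℕ) : ℝ)) := by
  obtain ⟨h0, h1⟩ := x_facts p.2
  unfold ll
  rw [(hasSum_lam p.2).tsum_eq]
  generalize 1 / ((p : ℕ) : ℝ) = x at *
  have h2 : (1 + x) ≠ 0 := by positivity
  have h3 : (1 - x) ≠ 0 := by linarith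
  have h5 : (1 : ℝ) - x ^ 2 = (1 - x) * (1 + x) := by ring
  rw [h5]
  field_simp
  ring

theorem ll_mult : Multipliable ll := by
  have hs : Summable fun p : Nat.Primes => ll p - 1 := by
    refine Summable.of_norm_bounded (summable_x2.mul_left 770) fun p => ?_
    rw [ll_eq, Real.norm_eq_abs]
    obtain ⟨h0, h1⟩ := x_facts p.2
    generalize 1 / ((p : ℕ) : ℝ) = x at *
    have h2 : 0 < 1 + x := by linarith
    have e : (1 - x) ^ 7 * (1 + 8 * x + x ^ 2) / (1 + x) - 1 =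
        x ^ 2 * ((-34 + 126 * x - 224 * x ^ 2 + 224 * x ^ 3 - 126 * x ^ 4 + 34 * x ^ 5 - x ^ 6 - x ^ 7) /
          (1 + x)) := by
      field_simp
      ring
    rw [e, abs_mul, abs_of_nonneg (sq_nonneg x), mul_comm (770 : ℝ)]
    refine mul_le_mul_of_nonneg_left ?_ (sq_nonneg x)
    rw [abs_div, abs_of_pos h2, div_le_iff₀ h2]
    have hp : ∀ k : ℕ, 0 ≤ x ^ k ∧ x ^ k ≤ 1 := fun k =>
      ⟨by positivity, pow_le_one₀ h0.le (by linarith)⟩
    have p2 := hp 2
    have p3 := hp 3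
    have p4 := hp 4
    have p5 := hp 5
    have p6 := hp 6
    have p7 := hp 7
    rw [abs_le]
    constructor <;> linarith [p2.1, p2.2, p3.1, p3.2, p4.1, p4.2, p5.1, p5.2, p6.1, p6.2, p7.1, p7.2]
  have h := Real.multipliable_one_add_of_summable hs
  refine h.congr fun p => ?_
  ring

theorem lc4 (m : ℕ) : lc 4 m = ((m : ℝ) + 1) * (m + 2) * (m + 3) / 6 := by
  induction m with
  | zero => norm_num [lc]
  | succ m ih =>
    have h : lc 4 (m + 1) = lc 4 m * ((4 + (m : ℝ)) / ((m : ℝ) + 1)) := by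
      unfold lc
      rw [Finset.prod_range_succ]
    rw [h, ih]
    have : (m : ℝ) + 1 ≠ 0 := by positivity
    push_cast
    field_simp
    ring

theorem hasSum_lc {x : ℝ} (h0 : 0 < x) (h1 : x ≤ 1 / 2) :
    HasSum (fun m => lc 4 m ^ 2 * x ^ m) ((1 + 9 * x + 9 * x ^ 2 + x ^ 3) / (1 - x) ^ 7) := by
  have hn : ‖x‖ < 1 := by rw [Real.norm_of_nonneg h0.le]; linarith
  have s3 := (hasSum_choose_mul_geometric_of_norm_lt_one 3 hn).mul_left (-1)
  have s4 := (hasSum_choose_mul_geometric_of_norm_lt_one 4 hn).mul_left 12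
  have s5 := (hasSum_choose_mul_geometric_of_norm_lt_one 5 hn).mul_left (-30)
  have s6 := (hasSum_choose_mul_geometric_of_norm_lt_one 6 hn).mul_left 20
  have s := ((s3.add s4).add s5).add s6
  have e1 : (fun m : ℕ => -1 * ((((m + 3).choose 3 : ℕ) : ℝ) * x ^ m) +
      12 * ((((m + 4).choose 4 : ℕ) : ℝ) * x ^ m) + -30 * ((((m + 5).choose 5 : ℕ) : ℝ) * x ^ m) +
      20 * ((((m + 6).choose 6 : ℕ) : ℝ) * x ^ m)) = fun m => lc 4 m ^ 2 * x ^ m := by
    funext m
    have c1 : (((m + 1).choose 1 : ℕ) : ℝ) = (m : ℝ) + 1 := by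
      rw [Nat.choose_one_right]
      push_cast
      ring
    have c2 := choose_step 1 m
    have c3 := choose_step 2 m
    have c4 := choose_step 3 m
    have c5 := choose_step 4 m
    have c6 := choose_step 5 m
    norm_num only at c2 c3 c4 c5 c6
    rw [c6, c5, c4, c3, c2, c1, lc4]
    ring
  rw [e1] at s
  have e2 : -1 * (1 / (1 - x) ^ (3 + 1)) + 12 * (1 / (1 - x) ^ (4 + 1)) + -30 * (1 / (1 - x) ^ (5 + 1)) +
      20 * (1 / (1 - x) ^ (6 + 1)) = (1 + 9 * x + 9 * x ^ 2 + x ^ 3) / (1 - x) ^ 7 := by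
    have h3 : (1 - x) ≠ 0 := by linarith
    field_simp
    ring
  rw [e2] at s
  exact s

theorem aF_eq : aF 4 = (∏' p, ll p) * kp * kp := by
  have hk : kp = ∏' p, kl p := rfl
  rw [hk, ← ll_mult.tprod_mul kl_mult, ← (ll_mult.mul kl_mult).tprod_mul kl_mult]
  unfold aF
  refine tprod_congr fun p => ?_
  obtain ⟨h0, h1⟩ := x_facts p.2
  rw [(hasSum_lc h0 h1).tsum_eq, ll_eq]
  unfold kl
  have e16 : ((4 : ℝ) ^ 2) = ((16 : ℕ) : ℝ) := by norm_num
  rw [e16, Real.rpow_natCast]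
  generalize 1 / ((p : ℕ) : ℝ) = x at *
  have h2 : (1 + x) ≠ 0 := by positivity
  have h3 : (1 - x) ≠ 0 := by linarith
  field_simp
  ring

/-- the statement of `MEP` -/
def S_MEP : Prop := ∀ {r : ℕ} (_ : 0 < r) (m : Fin r → ℕ) (lam : ℕ → (Fin r → ℕ) → ℝ) (_ : LW r m lam),
    KH r (mw lam) ∧ ∀ s : Fin r → ℝ, (∀ i, 0 < s i) →
      Tendsto (fun L : ℝ => (∑' b : Fin r → ℕ, mw lam b * ∏ i, (b i : ℝ) ^ (-(s i / L))) /
          L ^ ((∑ i, m i : ℕ) : ℝ)) atTop
        (𝓝 ((∏' p : Nat.Primes, ((1 - 1 / (p : ℝ)) ^ (∑ i, m i) * ∑' v : Fin r → ℕ, lam p v)) *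
          ∏ i, (s i) ^ (-(m i : ℝ))))

theorem v2_lim (MEP : S_MEP) : 0 < kp ∧ KH 2 v2 ∧ ∀ s : Fin 2 → ℝ, (∀ i, 0 < s i) →
    Tendsto (fun L : ℝ => (∑' b : Fin 2 → ℕ, v2 b * ∏ i, (b i : ℝ) ^ (-(s i / L))) / L ^ (8 : ℝ))
      atTop (𝓝 (aF 4 / kp ^ 2 * ∏ i, (s i) ^ (-((![4, 4] : Fin 2 → ℝ) i)))) := by
  obtain ⟨hKH, hlim⟩ := MEP (by norm_num) ![4, 4] lamV LW_lamV
  rw [v2_eq]
  refine ⟨kp_pos, hKH, fun s hs => ?_⟩
  have h := hlim s hs
  have e1 : ∑ i, (![4, 4] : Fin 2 → ℕ) i = 8 := by decide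
  have e2 : ∏' p : Nat.Primes, ((1 - 1 / (p : ℝ)) ^ (∑ i, (![4, 4] : Fin 2 → ℕ) i) *
      ∑' v : Fin 2 → ℕ, lamV p v) = aF 4 / kp ^ 2 := by
    rw [e1, aF_eq]
    have hk := kp_pos.ne'
    rw [eq_div_iff (pow_ne_zero 2 hk)]
    unfold ll
    ring
  have e3 : ∏ i, (s i) ^ (-(((![4, 4] : Fin 2 → ℕ) i : ℕ) : ℝ)) =
      ∏ i, (s i) ^ (-((![4, 4] : Fin 2 → ℝ) i)) := by
    rw [Fin.prod_univ_two, Fin.prod_univ_two]
    simp
  rw [e2, e3, e1] at h
  have e4 : (((8 : ℕ) : ℝ)) = (8 : ℝ) := by norm_num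
  rw [e4] at h
  exact h

end

end Pool.Agent.H509R2.EMMI3
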