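import Mathlib
import Pool.Agent.H326R2.Pi.Stmts

/-!
# Regular growth of the coefficients of `π` (task T11 of the measure of `π`)
-/

open Filter Topology

namespace Pool.Agent.H509R2.PiT11

open Pool.Agent.H326R2.Pi

theorem kreg (hpos : S_kpos) (hmul : S_kmul) (hup : S_kup) : S_kreg := by
  have h1 : ∀ n, (1 : ℝ) ≤ (kk n : ℝ) := by
    intro n
    have h := hpos n
    exact_mod_cast (show (1 : ℤ) ≤ kk n by omega)
  have h0 : ∀ n, (0 : ℝ) < (kk n : ℝ) := fun n => lt_of_lt_of_le one_pos (h1 n)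
  have hlog0 : ∀ n, 0 ≤ Real.log (kk n) := fun n => Real.log_nonneg (h1 n)
  have hlog1 : ∀ n : ℕ, Real.log (kk n) ≤ 10.5405 * n := by
    intro n
    rw [Real.log_le_iff_le_exp (h0 n)]
    exact hup n
  have hdiv : ∀ n : ℕ, Real.log (kk n) / n ≤ 10.5405 := by
    intro n
    rcases Nat.eq_zero_or_pos n with rfl | hn
    · simp only [Nat.cast_zero, div_zero]
      norm_num
    · rw [div_le_iff₀ (by exact_mod_cast hn)]
      exact hlog1 n
  have hsub : Subadditive (fun n => -Real.log (kk n)) := by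
    intro m n
    have h2 : ((kk m : ℝ)) * kk n ≤ kk (m + n) := by exact_mod_cast hmul m n
    have h3 : Real.log (kk m) + Real.log (kk n) ≤ Real.log (kk (m + n)) := by
      rw [← Real.log_mul (h0 m).ne' (h0 n).ne']
      exact Real.log_le_log (mul_pos (h0 m) (h0 n)) h2
    change -Real.log (kk (m + n)) ≤ -Real.log (kk m) + -Real.log (kk n)
    linarith
  have hbdd : BddBelow (Set.range fun n : ℕ => -Real.log (kk n) / n) := by
    refine ⟨-10.5405, ?_⟩
    rintro _ ⟨n, rfl⟩
    change (-10.5405 : ℝ) ≤ -Real.log (kk n) / n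
    have := hdiv n
    rw [neg_div]
    linarith
  have hlim := hsub.tendsto_lim hbdd
  have hlim2 : Tendsto (fun n : ℕ => Real.log (kk n) / n) atTop (𝓝 (-hsub.lim)) := by
    have h4 := hlim.neg
    refine h4.congr (fun n => ?_)
    rw [neg_div, neg_neg]
  refine ⟨-hsub.lim, ?_, ?_, ?_⟩
  · exact ge_of_tendsto' hlim2 (fun n => div_nonneg (hlog0 n) (Nat.cast_nonneg n))
  · exact le_of_tendsto' hlim2 hdiv
  · intro ε hε
    have h5 := hlim2.eventually (Metric.ball_mem_nhds (-hsub.lim) hε)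
    filter_upwards [h5, eventually_gt_atTop 0] with n hn hn0
    rw [Real.dist_eq, abs_lt] at hn
    have hn1 : (0 : ℝ) < n := by exact_mod_cast hn0
    have h6 : (-hsub.lim - ε) * n ≤ Real.log (kk n) := by
      rw [← le_div_iff₀ hn1]
      linarith [hn.1]
    have h7 : Real.log (kk n) ≤ (-hsub.lim + ε) * n := by
      rw [← div_le_iff₀ hn1]
      linarith [hn.2]
    constructor
    · calc Real.exp ((-hsub.lim - ε) * n) ≤ Real.exp (Real.log (kk n)) := Real.exp_le_exp.2 h6
        _ = kk n := Real.exp_log (h0 n)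
    · calc (kk n : ℝ) = Real.exp (Real.log (kk n)) := (Real.exp_log (h0 n)).symm
        _ ≤ Real.exp ((-hsub.lim + ε) * n) := Real.exp_le_exp.2 h7

end Pool.Agent.H509R2.PiT11
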