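import Pool.Agent.H961R2.Lev.Stubs

/-! Project LEV (helper961), task M6: supersolution in the model. -/

set_option autoImplicit false

open MeasureTheory Set Filter Topology InnerProductSpace Complex

namespace H961Lev

theorem M6_posHalf (h2 : S_M2) {δ : ℝ} (h0 : 0 < δ) (h1 : δ < 1) : PosHalf (Ut δ) := by
  have hL := h2 δ h0 h1
  refine ⟨hL.cont.continuousOn, ?_, ?_⟩
  · intro z hz
    refine hL.harm z ?_
    rintro ⟨x, -, hx⟩
    rw [mem_ofPred_eq, ← hx] at hz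
    simp at hz
  · intro z _
    by_cases hm : z ∈ ((fun x : ℝ => (x : ℂ)) '' (Eh δ))
    · obtain ⟨x, hx, rfl⟩ := hm
      exact (hL.zero x hx).ge
    · exact (hL.pos z hm).le

theorem M6_ind {N r : ℕ} {i : ℤ} (h : ind N r i = 1) : ∃ k : ℤ, |i - k * N| ≤ r := by
  unfold ind at h
  by_contra hc
  rw [if_neg hc] at h
  exact zero_ne_one h

theorem M6_arith {B C0 C h e ε u S : ℝ} (hC0 : 0 < C0) (hC : C = 2 * C0 + 4) (hh : 0 < h)
    (hhC : C * h ≤ 1) (_ : h ≤ 1) (he0 : 0 < e) (he : 2 * e ≤ h ^ 2) (hε0 : 0 ≤ ε)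
    (hε : 2 * ε * (B + C0 + 1) ≤ h ^ 2) (hu0 : 0 ≤ u) (hu : u ≤ B)
    (hS : S ≤ u + C0 * h ^ 2 - h + e) :
    h + (1 + ε) * ((1 + C * h) * S) ≤ (1 + C * h) * u := by
  have hCpos : 0 < C := by rw [hC]; linarith
  have hCh : 0 < C * h := mul_pos hCpos hh
  have h1 : (1 + ε) * ((1 + C * h) * S) ≤ (1 + ε) * ((1 + C * h) * (u + C0 * h ^ 2 - h + e)) := by
    gcongr
  have hh2 : h ^ 2 ≤ 1 := by nlinarith
  have h2 : h + (1 + C * h) * (C0 * h ^ 2 - h) ≤ -(4 * h ^ 2) := by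
    have h3 : h + (1 + C * h) * (C0 * h ^ 2 - h) = -(h ^ 2 * (C - C0 - C * h * C0)) := by ring
    rw [h3]
    have h4 : C * h * C0 ≤ C0 := by nlinarith
    have h5 : 4 ≤ C - C0 - C * h * C0 := by rw [hC] at *; linarith
    have h6 : h ^ 2 * 4 ≤ h ^ 2 * (C - C0 - C * h * C0) :=
      mul_le_mul_of_nonneg_left h5 (sq_nonneg h)
    linarith
  have he1 : e ≤ 1 := by nlinarith
  have h3 : (1 + C * h) * e ≤ h ^ 2 := by
    have : (1 + C * h) * e ≤ 2 * e := mul_le_mul_of_nonneg_right (by linarith) he0.le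
    linarith
  have h4 : ε * ((1 + C * h) * (u + C0 * h ^ 2 - h + e)) ≤ h ^ 2 := by
    have h5 : u + C0 * h ^ 2 - h + e ≤ B + C0 + 1 := by
      have : C0 * h ^ 2 ≤ C0 := by nlinarith
      linarith
    have h6 : (0 : ℝ) ≤ B + C0 + 1 := by linarith
    have h7 : (1 + C * h) * (u + C0 * h ^ 2 - h + e) ≤ 2 * (B + C0 + 1) :=
      (mul_le_mul_of_nonneg_left h5 (by linarith)).trans
        (mul_le_mul_of_nonneg_right (by linarith) h6)
    calc ε * ((1 + C * h) * (u + C0 * h ^ 2 - h + e)) ≤ ε * (2 * (B + C0 + 1)) :=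
          mul_le_mul_of_nonneg_left h7 hε0
      _ = 2 * ε * (B + C0 + 1) := by ring
      _ ≤ h ^ 2 := hε
  nlinarith [sq_nonneg h]

theorem T_M6 (p4 : S_P4) (m2 : S_M2) (m3 : S_M3) (m5 : S_M5) (l1 : S_L1) : S_M6 := by
  intro δ δ' hδ'0 hδδ hδ1
  have hδ'1 : δ' < 1 := hδδ.trans hδ1
  set ρ : ℝ := (2 - δ - δ') / 4 with hρ
  obtain ⟨C0, h00, hC0, hh00, hM5⟩ := m5 δ' ρ hδ'0 hδ'1 (by rw [hρ]; linarith)
    (by rw [hρ]; linarith)
  obtain ⟨-, -, -, -, -, hper, hbd⟩ := m3 δ' hδ'0 hδ'1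
  have hcont := (m2 δ' hδ'0 hδ'1).cont
  have hnorm := (m2 δ' hδ'0 hδ'1).norm
  have hPos := M6_posHalf m2 hδ'0 hδ'1
  have hP := p4 (Ut δ') 1 hPos hnorm
  set C : ℝ := 2 * C0 + 4 with hC
  have hCpos : 0 < C := by rw [hC]; linarith
  refine ⟨C, min h00 (min (1 / C) 1), hCpos, by positivity, ?_⟩
  intro h hh hh'
  have a1 : h ≤ h00 := hh'.trans (min_le_left _ _)
  have a2 : h ≤ 1 / C := hh'.trans ((min_le_right _ _).trans (min_le_left _ _))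
  have a3 : h ≤ 1 := hh'.trans ((min_le_right _ _).trans (min_le_right _ _))
  have a4 : C * h ≤ 1 := by
    rw [le_div_iff₀ hCpos] at a2
    linarith
  have he : (0 : ℝ) < h ^ 2 / 2 := by positivity
  obtain ⟨N1, hN1⟩ := l1 (fun x : ℝ => Ut δ' (x : ℂ)) (hcont.comp Complex.continuous_ofReal)
    (fun x => by
      show Ut δ' (((x + 1 : ℝ)) : ℂ) = Ut δ' (x : ℂ)
      rw [Complex.ofReal_add, Complex.ofReal_one]
      exact hper _)
    (fun x => (hbd x).1) h (h ^ 2 / 2) hh he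
  set B : ℝ := Ut δ' 0 with hB
  have hB0 : 0 ≤ B := (hbd 0).1.trans (hbd 0).2
  refine ⟨max N1 (max (⌈2 / (δ - δ')⌉₊ + 1) (max (⌈1 / h⌉₊ + 1)
    (⌈4 * (B + C0 + 1) / h ^ 3⌉₊ + 1))), ?_⟩
  intro N hN r hr i hi
  have b1 : N1 ≤ N := (le_max_left _ _).trans hN
  have b2 : ⌈2 / (δ - δ')⌉₊ + 1 ≤ N := ((le_max_left _ _).trans (le_max_right _ _)).trans hN
  have b3 : ⌈1 / h⌉₊ + 1 ≤ N :=
    (((le_max_left _ _).trans (le_max_right _ _)).trans (le_max_right _ _)).trans hN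
  have b4 : ⌈4 * (B + C0 + 1) / h ^ 3⌉₊ + 1 ≤ N :=
    (((le_max_right _ _).trans (le_max_right _ _)).trans (le_max_right _ _)).trans hN
  have hNpos : (0 : ℝ) < N := by
    have : 0 < N := by omega
    exact_mod_cast this
  have c2 : 2 / (δ - δ') ≤ N := by
    refine (Nat.le_ceil _).trans ?_
    exact_mod_cast (by omega : ⌈2 / (δ - δ')⌉₊ ≤ N)
  have c3 : 1 / h ≤ N := by
    refine (Nat.le_ceil _).trans ?_
    exact_mod_cast (by omega : ⌈1 / h⌉₊ ≤ N)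
  have c4 : 4 * (B + C0 + 1) / h ^ 3 ≤ N := by
    refine (Nat.le_ceil _).trans ?_
    exact_mod_cast (by omega : ⌈4 * (B + C0 + 1) / h ^ 3⌉₊ ≤ N)
  rw [div_le_iff₀ (by linarith : (0 : ℝ) < δ - δ')] at c2
  rw [div_le_iff₀ hh] at c3
  rw [div_le_iff₀ (by positivity)] at c4
  -- the point is close to an integer
  obtain ⟨k, hk⟩ := M6_ind hi
  have hk' : |(i : ℝ) - k * N| ≤ r := by exact_mod_cast hk
  have hx : |(i : ℝ) / N - k| ≤ ρ := by
    have e1 : (i : ℝ) / N - k = ((i : ℝ) - k * N) / N := by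
      field_simp
    rw [e1, abs_div, abs_of_pos hNpos, div_le_iff₀ hNpos]
    refine hk'.trans ?_
    rw [hρ]
    nlinarith
  have hM := hM5 k ((i : ℝ) / N) h hx hh a1
  have hPx := (hP.2 ((i : ℝ) / N) h hh).2
  have hsum := hN1 N b1 i
  have hub := hbd ((i : ℝ) / N)
  have hε : 0 ≤ epsf h N ∧ 2 * epsf h N * (B + C0 + 1) ≤ h ^ 2 := by
    unfold epsf
    have hNh : 0 < N * h := by positivity
    have d1 : (1 : ℝ) / (N * h) ^ 2 ≤ 1 / (N * h) := by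
      apply one_div_le_one_div_of_le hNh
      nlinarith
    refine ⟨by positivity, ?_⟩
    have d2 : 2 * (1 / (N * h) + 1 / (N * h) ^ 2) * (B + C0 + 1) ≤
        2 * (2 * (1 / (N * h))) * (B + C0 + 1) := by
      have : (0 : ℝ) ≤ B + C0 + 1 := by linarith
      gcongr
      linarith
    refine d2.trans ?_
    have d3 : 2 * (2 * (1 / (N * h))) * (B + C0 + 1) = 4 * (B + C0 + 1) / (N * h) := by ring
    rw [d3, div_le_iff₀ hNh]
    calc 4 * (B + C0 + 1) ≤ N * h ^ 3 := c4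
      _ = h ^ 2 * (N * h) := by ring
  have hS : ∑' m : ℤ, kap (h * N) m * Ut δ' ((((i + m : ℤ) : ℝ) / N : ℝ) : ℂ) ≤
      Ut δ' (((i : ℝ) / N : ℝ) : ℂ) + C0 * h ^ 2 - h + h ^ 2 / 2 := by
    refine hsum.trans ?_
    have e2 : (∫ t : ℝ, PK h ((i : ℝ) / N - t) * Ut δ' (t : ℂ)) =
        Ut δ' ((((i : ℝ) / N : ℝ) : ℂ) + h * I) - h := by
      rw [hPx]
      ring
    show (∫ t : ℝ, PK h ((i : ℝ) / N - t) * Ut δ' (t : ℂ)) + h ^ 2 / 2 ≤ _
    rw [e2]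
    linarith
  have hpull : ∑' m : ℤ, kap (h * N) m * ((1 + C * h) * Ut δ' ((((i + m : ℤ) : ℝ) / N : ℝ) : ℂ)) =
      (1 + C * h) * ∑' m : ℤ, kap (h * N) m * Ut δ' ((((i + m : ℤ) : ℝ) / N : ℝ) : ℂ) := by
    rw [← tsum_mul_left]
    exact tsum_congr fun m => by ring
  rw [hpull]
  exact M6_arith hC0 hC hh a4 a3 he (by linarith) hε.1 hε.2 hub.1 hub.2 hS

end H961Lev
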