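import Pool.Agent.H626R2.Loc.GDefs
import Pool.Agent.H626R2.Loc.C2c

set_option autoImplicit false

namespace Pool.Agent.H626R2.Loc

open MvPolynomial

section gen

variable {K : Type} [Field K] {n : ℕ}

namespace S3

theorem card_support_add (f g : MvPolynomial (Fin n) K) :
    (f + g).support.card ≤ f.support.card + g.support.card := by
  classical
  exact (Finset.card_le_card MvPolynomial.support_add).trans (Finset.card_union_le _ _)

theorem card_support_mul (f g : MvPolynomial (Fin n) K) :
    (f * g).support.card ≤ f.support.card * g.support.card := by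
  classical
  exact (Finset.card_le_card (MvPolynomial.support_mul f g)).trans Finset.card_add_le

theorem card_support_sum_le {ι : Type*} (t : Finset ι) (f : ι → MvPolynomial (Fin n) K)
    (h : ∀ i ∈ t, (f i).support.card ≤ 1) : (∑ i ∈ t, f i).support.card ≤ t.card := by
  classical
  refine (Finset.card_le_card MvPolynomial.support_sum).trans ?_
  have := Finset.card_biUnion_le_card_mul t (fun i => (f i).support) 1 h
  rwa [mul_one] at this

theorem card_support_monomial (m : Fin n →₀ ℕ) (a : K) :
    (monomial m a : MvPolynomial (Fin n) K).support.card ≤ 1 :=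
  (Finset.card_le_card support_monomial_subset).trans (by simp)

theorem card_support_pderiv (i : Fin n) (f : MvPolynomial (Fin n) K) :
    (pderiv i f).support.card ≤ f.support.card := by
  classical
  conv_lhs => rw [MvPolynomial.as_sum f, map_sum]
  refine card_support_sum_le _ _ fun m _ => ?_
  rw [pderiv_monomial]
  exact card_support_monomial _ _

theorem card_support_univ (m : Fin n) (u : Polynomial K) :
    (Polynomial.aeval (X m : MvPolynomial (Fin n) K) u).support.card ≤ u.support.card := by
  classical
  rw [Polynomial.aeval_def, Polynomial.eval₂_eq_sum, Polynomial.sum_def]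
  refine card_support_sum_le _ _ fun k _ => ?_
  rw [MvPolynomial.algebraMap_eq, MvPolynomial.C_mul_X_pow_eq_monomial]
  exact card_support_monomial _ _

theorem card_support_prod {q L : ℕ} (f : Fin q → MvPolynomial (Fin n) K)
    (h : ∀ b, (f b).support.card ≤ L) : (∏ b, f b).support.card ≤ L ^ q := by
  classical
  have : ∀ t : Finset (Fin q), (∏ b ∈ t, f b).support.card ≤ L ^ t.card := by
    intro t
    induction t using Finset.induction_on with
    | empty =>
      rw [Finset.prod_empty, Finset.card_empty, pow_zero]
      exact card_support_monomial 0 1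
    | insert b t hb ih =>
      rw [Finset.prod_insert hb, Finset.card_insert_of_notMem hb, pow_succ, mul_comm (L ^ _)]
      exact (card_support_mul _ _).trans (Nat.mul_le_mul (h b) ih)
  have h2 := this Finset.univ
  rwa [Finset.card_univ, Fintype.card_fin] at h2

end S3

open S3 in
/-- S3. -/
theorem row_decompS {q p L sp d : ℕ} (hq : q ≤ p) (hL : 1 ≤ L) (s : Fin q → Fin n)
    (hs : Function.Injective s) {F : MvPolynomial (Fin n) K} (hF : F ∈ SimpleS n K L sp d)
    (hF0 : F ≠ 0) :
    ∃ (w : Fin n → Polynomial K) (R : Fin q → MvPolynomial (Fin n) K),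
      (∀ m, w m ≠ 0) ∧ (∀ b, pderiv (s b) F = (∏ m, Polynomial.aeval (X m) (w m)) * R b) ∧
      ∀ b, (R b).support.card ≤ rowS p L sp := by
  classical
  rcases hF with ⟨u, p', huL, hp, -, rfl⟩ | ⟨u, p', huL, hp, -, rfl⟩
  · refine ⟨fun _ => 1, fun b => pderiv (s b) (∑ m, Polynomial.aeval (X m) (u m) + p'),
      fun _ => one_ne_zero, fun b => by simp, fun b => ?_⟩
    show (pderiv (s b) (∑ m, Polynomial.aeval (X m) (u m) + p')).support.card ≤ _
    rw [map_add, map_sum, Finset.sum_eq_single (s b)]
    · refine (card_support_add _ _).trans ?_
      have h1 := (card_support_pderiv (s b) (Polynomial.aeval (X (s b)) (u (s b)))).trans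
        ((card_support_univ (s b) (u (s b))).trans (huL (s b)))
      have h2 := (card_support_pderiv (s b) p').trans hp
      unfold rowS
      omega
    · intro m _ hm
      rw [C2c.pderiv_univ, if_neg hm]
    · intro h
      exact absurd (Finset.mem_univ _) h
  · have hu : ∀ m, u m ≠ 0 := by
      intro m hm
      apply hF0
      rw [Finset.prod_eq_zero (Finset.mem_univ m) (by rw [hm, map_zero]), zero_mul]
    set U : MvPolynomial (Fin n) K := ∏ b, Polynomial.aeval (X (s b)) (u (s b)) with hU
    set w : Fin n → Polynomial K := fun m => if m ∈ Set.range s then 1 else u m with hw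
    have hprod : (∏ m, Polynomial.aeval (X m : MvPolynomial (Fin n) K) (u m)) =
        (∏ m, Polynomial.aeval (X m) (w m)) * U := by
      have h1 : U = ∏ m ∈ Finset.univ.image s, Polynomial.aeval (X m) (u m) := by
        rw [Finset.prod_image (fun a _ b _ h => hs h)]
      have h2 : ∏ m ∈ Finset.univ.image s, Polynomial.aeval (X m : MvPolynomial (Fin n) K) (u m) =
          ∏ m, if m ∈ Set.range s then Polynomial.aeval (X m) (u m) else 1 := by
        rw [← Finset.prod_filter]
        refine Finset.prod_congr ?_ fun _ _ => rfl
        ext m
        simp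
      rw [h1, h2, ← Finset.prod_mul_distrib]
      refine Finset.prod_congr rfl fun m _ => ?_
      by_cases h : m ∈ Set.range s
      · simp only [hw, if_pos h, map_one, one_mul]
      · simp only [hw, if_neg h, mul_one]
    have hd0 : ∀ b, pderiv (s b) (∏ m, Polynomial.aeval (X m : MvPolynomial (Fin n) K) (w m)) = 0 := by
      intro b
      refine Finset.prod_induction _ (fun f => pderiv (s b) f = 0) ?_ ?_ ?_
      · intro f g hf hg
        rw [Derivation.leibniz, hf, hg, smul_zero, smul_zero, add_zero]
      · exact Derivation.map_one_eq_zero _
      · intro m _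
        by_cases h : m ∈ Set.range s
        · simp only [hw, if_pos h, map_one]
          exact Derivation.map_one_eq_zero _
        · rw [C2c.pderiv_univ, if_neg]
          intro h'
          exact h ⟨b, h'.symm⟩
    refine ⟨w, fun b => pderiv (s b) (U * p'), ?_, ?_, ?_⟩
    · intro m
      by_cases h : m ∈ Set.range s
      · simp only [hw, if_pos h]
        exact one_ne_zero
      · simp only [hw, if_neg h]
        exact hu m
    · intro b
      rw [hprod, mul_assoc, Derivation.leibniz, hd0, smul_zero, add_zero, smul_eq_mul]
    · intro b
      show (pderiv (s b) (U * p')).support.card ≤ _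
      have h1 : U.support.card ≤ L ^ q :=
        card_support_prod _ fun b' => (card_support_univ _ _).trans (huL _)
      have h2 : (pderiv (s b) (U * p')).support.card ≤ L ^ q * sp :=
        (card_support_pderiv _ _).trans ((card_support_mul _ _).trans (Nat.mul_le_mul h1 hp))
      have h3 : L ^ q * sp ≤ L ^ p * sp :=
        Nat.mul_le_mul_right _ (Nat.pow_le_pow_right hL hq)
      unfold rowS
      omega

end gen

end Pool.Agent.H626R2.Loc
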