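import Pool.Agent.H626R2.Loc.Defs

set_option autoImplicit false

namespace Pool.Agent.H626R2.Loc

open MvPolynomial

theorem v2_const {F E : Type} [Field F] [Field E] [Algebra F E] (V : ValuationSubring E)
    (hF : ∀ c : F, algebraMap F E c ∈ V) (c : F) (hc : c ≠ 0) :
    V.valuation (algebraMap F E c) = 1 := by
  have h1 : V.valuation (algebraMap F E c) ≤ 1 := (V.valuation_le_one_iff _).2 (hF c)
  have h2 : V.valuation (algebraMap F E c⁻¹) ≤ 1 := (V.valuation_le_one_iff _).2 (hF c⁻¹)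
  rw [map_inv₀, map_inv₀] at h2
  have h3 : V.valuation (algebraMap F E c) ≠ 0 := by
    rw [Ne, map_eq_zero, map_eq_zero]
    exact hc
  exact le_antisymm h1 ((inv_le_one₀ (zero_lt_iff.2 h3)).1 h2)

/-- the ratio of two monomials -/
theorem v2_ratio {E : Type} [Field E] {r : ℕ} (T : Fin r → E) (hT : ∀ i, T i ≠ 0)
    (m m' : Fin r →₀ ℕ) :
    (∏ i, T i ^ m i) / ∏ i, T i ^ m' i = ∏ i, T i ^ ((m i : ℤ) - (m' i : ℤ)) := by
  rw [← Finset.prod_div_distrib]
  refine Finset.prod_congr rfl fun i _ => ?_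
  rw [zpow_sub₀ (hT i), zpow_natCast, zpow_natCast]

/-- V2. -/
theorem algInd_of_indepVal {F E : Type} [Field F] [Field E] [Algebra F E] {r : ℕ} (T : Fin r → E)
    (V : ValuationSubring E) (hF : ∀ c : F, algebraMap F E c ∈ V) (hT : IndepVal V T) :
    AlgebraicIndependent F T := by
  classical
  obtain ⟨hT0, hT1⟩ := hT
  rw [algebraicIndependent_iff]
  intro p hp
  by_contra hp0
  set v := V.valuation with hv
  set f : (Fin r →₀ ℕ) → E := fun m => algebraMap F E (coeff m p) * ∏ i, T i ^ m i with hf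
  have hsum : aeval T p = ∑ m ∈ p.support, f m := by
    rw [aeval_def, eval₂_eq']
  have hprod0 : ∀ m : Fin r →₀ ℕ, ∏ i, T i ^ m i ≠ 0 := fun m =>
    Finset.prod_ne_zero_iff.2 fun i _ => pow_ne_zero _ (hT0 i)
  have hfv : ∀ m ∈ p.support, v (f m) = v (∏ i, T i ^ m i) := by
    intro m hm
    rw [hf, map_mul, v2_const V hF _ (mem_support_iff.1 hm), one_mul]
  have hne : ∀ m ∈ p.support, ∀ m' ∈ p.support, m ≠ m' → v (f m) ≠ v (f m') := by
    intro m hm m' hm' hmm h
    rw [hfv m hm, hfv m' hm'] at h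
    refine hT1 (fun i => (m i : ℤ) - (m' i : ℤ)) ?_ ?_
    · intro h0
      apply hmm
      ext i
      have := congrFun h0 i
      simp only [Pi.zero_apply] at this
      omega
    · rw [← v2_ratio T hT0 m m', map_div₀, h, div_self]
      rw [Ne, map_eq_zero]
      exact hprod0 m'
  obtain ⟨j, hj, hmax⟩ := p.support.exists_max_image (fun m => v (f m))
    (support_nonempty.2 hp0)
  have h1 : v (∑ m ∈ p.support, f m) = v (f j) := by
    apply Valuation.map_sum_eq_of_lt v hj
    intro i hi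
    rw [Finset.mem_sdiff, Finset.mem_singleton] at hi
    exact lt_of_le_of_ne (hmax i hi.1) (hne i hi.1 j hj hi.2)
  rw [← hsum, hp, map_zero] at h1
  have h2 := h1.symm
  rw [hfv j hj, map_eq_zero] at h2
  exact hprod0 j h2

end Pool.Agent.H626R2.Loc
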